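import Pool.Agent.K9h2.BH.Main

/-!
For primes `p < q` and `b ≥ 1`, the maximal height `B (p q^b)` of a divisor of `x^(p q^b) - 1`
equals `p` times the maximal height of a product of distinct cyclotomic polynomials whose indices
divide `p q^(b-1)` and are divisible by `q`. In particular `p` divides `B (p q^b)`.
-/

set_option autoImplicit false

open Polynomial Finset Pool.Agent.K9h2.BH

/-- `B n` is the greatest height of a divisor of `x^n - 1`; for primes `p < q` and `b ≥ 1` it is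
`p` times the greatest height of `∏_{e ∈ U} Φ_e`, for `U` a set of divisors of `p q^(b-1)` all
divisible by `q`; so `p` divides `B (p q^b)`. -/
theorem Pool.Agent.Results.MP_b384de_nt.DivisorHeight.result :
    ∀ p q b : ℕ, p.Prime → q.Prime → p < q → 1 ≤ b →
      IsGreatest {h : ℕ | ∃ f : ℤ[X], f ∣ X ^ (p * q ^ b) - 1 ∧ height f = h} (B (p * q ^ b)) ∧
      p ∣ B (p * q ^ b) ∧
      ∃ M : ℕ, B (p * q ^ b) = p * M ∧
        IsGreatest {h : ℕ | ∃ U : Finset ℕ, (∀ e ∈ U, e ∣ p * q ^ (b - 1) ∧ q ∣ e) ∧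
          height (∏ e ∈ U, cyclotomic e ℤ) = h} M := by
  intro p q b hp hq hpq hb
  obtain ⟨M, hM, hG, hB⟩ := main p q b hp hq hpq hb
  refine ⟨hG, ⟨M, hB⟩, M, hB, ?_⟩
  have hn : p * q ^ (b - 1) ≠ 0 := (Nat.mul_pos hp.pos (pow_pos hq.pos _)).ne'
  have hset : {h : ℕ | ∃ U : Finset ℕ, (∀ e ∈ U, e ∣ p * q ^ (b - 1) ∧ q ∣ e) ∧
      height (∏ e ∈ U, cyclotomic e ℤ) = h} =
      {h : ℕ | ∃ U ⊆ (p * q ^ (b - 1)).divisors.filter (q ∣ ·),
        height (∏ e ∈ U, cyclotomic e ℤ) = h} := by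
    ext h
    constructor
    · rintro ⟨U, hU, hh⟩
      refine ⟨U, fun e he => ?_, hh⟩
      rw [Finset.mem_filter, Nat.mem_divisors]
      exact ⟨⟨(hU e he).1, hn⟩, (hU e he).2⟩
    · rintro ⟨U, hU, hh⟩
      refine ⟨U, fun e he => ?_, hh⟩
      have := hU he
      rw [Finset.mem_filter, Nat.mem_divisors] at this
      exact ⟨this.1.1, this.2⟩
  rw [hset]
  exact hM
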